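import Mathlib

/-!
An infinite graph with boundary all of whose networks have flat fundamental modules, although
one of its networks over the integers has a fundamental module that is not free.
-/

universe u

namespace Pool.Agent.Results.MP_2ddb17_co.FlatNotFree

open SimpleGraph Module

section defs

variable {V : Type} (G : SimpleGraph V) [G.LocallyFinite] (R : Type u) [CommRing R]

/-- Weights of an `Rˣ`-network: symmetric and invertible on the edges. -/
def IsNetwork (w : V → V → R) : Prop := ∀ x y, G.Adj x y → w x y = w y x ∧ IsUnit (w x y)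

/-- The generalized Laplacian on a basis vector:
`L x = d(x) x + ∑ w(x,y) (x - y)`, the sum over the neighbours `y` of `x`. -/
noncomputable def lapVec (w : V → V → R) (d : V → R) (x : V) : V →₀ R :=
  Finsupp.single x (d x) +
    ∑ y ∈ G.neighborFinset x, w x y • (Finsupp.single x 1 - Finsupp.single y 1)

/-- The generalized Laplacian. -/
noncomputable def lap (w : V → V → R) (d : V → R) : (V →₀ R) →ₗ[R] (V →₀ R) :=
  Finsupp.linearCombination R (lapVec G R w d)

/-- The image of the free module on the interior vertices. -/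
noncomputable def imInt (I : Set V) (w : V → V → R) (d : V → R) : Submodule R (V →₀ R) :=
  (Finsupp.supported R R I).map (lap G R w d)

/-- The fundamental module. -/
abbrev Fund (I : Set V) (w : V → V → R) (d : V → R) : Type u :=
  (V →₀ R) ⧸ imInt G R I w d

end defs

/-! ### A flatness criterion -/

theorem flat_quot {R : Type u} {M : Type u} [CommRing R] [AddCommGroup M] [Module R M]
    [Module.Flat R M] (K : Submodule R M)
    (h : ∀ z ∈ K, ∃ ε : M →ₗ[R] M, (∀ m, m - ε m ∈ K) ∧ ε z = 0) : Module.Flat R (M ⧸ K) := by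
  refine Module.Flat.of_forall_isTrivialRelation ?_
  intro l f x hx
  choose X hX using fun i => Submodule.Quotient.mk_surjective K (x i)
  have hz : ∑ i, f i • X i ∈ K := by
    rw [← Submodule.Quotient.mk_eq_zero]
    rw [← hx, ← Submodule.mkQ_apply, map_sum]
    refine Finset.sum_congr rfl fun i _ => ?_
    rw [map_smul, Submodule.mkQ_apply, hX]
  obtain ⟨ε, h1, h2⟩ := h _ hz
  have h3 : ∑ i, f i • ε (X i) = 0 := by
    rw [← h2, map_sum]
    exact Finset.sum_congr rfl fun i _ => (map_smul _ _ _).symm
  obtain ⟨k, a, y, h4, h5⟩ := Module.Flat.isTrivialRelation_of_sum_smul_eq_zero h3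
  refine ⟨k, a, fun j => Submodule.Quotient.mk (y j), fun i => ?_, h5⟩
  have h6 : x i = Submodule.Quotient.mk (ε (X i)) := by
    rw [← hX i, Submodule.Quotient.eq]
    exact h1 _
  have h7 : ε (X i) = ∑ j, a i j • y j := h4 i
  rw [h6, h7, ← Submodule.mkQ_apply, map_sum]
  refine Finset.sum_congr rfl fun j _ => ?_
  rw [map_smul, Submodule.mkQ_apply]

/-! ### The graph -/

/-- Vertices: `(true, n, i)` is interior, `(false, n, i)` is a boundary vertex. -/
abbrev Vx : Type := Bool × ℕ × Fin 2

/-- The interior vertex `y n i` is joined to the boundary vertices `s n i`, `s (n+1) 0` and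
`s (n+1) 1`. -/
def rel : Vx → Vx → Prop
  | (true, n, i), (false, m, j) => (m = n ∧ j = i) ∨ m = n + 1
  | _, _ => False

/-- The graph. -/
def Gr : SimpleGraph Vx where
  Adj u v := rel u v ∨ rel v u
  symm := ⟨fun _ _ h => h.symm⟩
  loopless := ⟨by
    rintro ⟨_ | _, n, i⟩ (h | h) <;> exact h⟩

theorem adj_y_s {n m : ℕ} {i j : Fin 2} :
    Gr.Adj (true, n, i) (false, m, j) ↔ (m = n ∧ j = i) ∨ m = n + 1 := by
  constructor
  · rintro (h | h)
    · exact h
    · exact h.elim
  · exact Or.inl

theorem not_adj_y_y {n m : ℕ} {i j : Fin 2} : ¬ Gr.Adj (true, n, i) (true, m, j) := by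
  rintro (h | h) <;> exact h

theorem not_adj_s_s {n m : ℕ} {i j : Fin 2} : ¬ Gr.Adj (false, n, i) (false, m, j) := by
  rintro (h | h) <;> exact h

theorem finite_nbr (v : Vx) : (Gr.neighborSet v).Finite := by
  have hsub : Gr.neighborSet v ⊆ {u : Vx | u.2.1 ≤ v.2.1 + 1} := by
    rcases v with ⟨_ | _, n, i⟩ <;> rintro ⟨_ | _, m, j⟩ h
    · exact absurd h not_adj_s_s
    · have := adj_y_s.1 (Gr.adj_symm h)
      show m ≤ n + 1
      omega
    · have := adj_y_s.1 h
      show m ≤ n + 1
      omega
    · exact absurd h not_adj_y_y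
  refine Set.Finite.subset ?_ hsub
  have : {u : Vx | u.2.1 ≤ v.2.1 + 1} =
      (Set.univ : Set Bool) ×ˢ ((Set.Iic (v.2.1 + 1)) ×ˢ (Set.univ : Set (Fin 2))) := by
    ext ⟨b, m, j⟩
    simp
  rw [this]
  exact Set.finite_univ.prod ((Set.finite_Iic _).prod Set.finite_univ)

noncomputable instance : Gr.LocallyFinite := fun v => (finite_nbr v).fintype

/-- The interior vertices. -/
def Int : Set Vx := {v | v.1 = true}

theorem nbr_y (n : ℕ) (i : Fin 2) : Gr.neighborFinset (true, n, i) =
    {(false, n, i), (false, n + 1, 0), (false, n + 1, 1)} := by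
  ext ⟨_ | _, m, j⟩
  · rw [mem_neighborFinset, adj_y_s]
    simp only [Finset.mem_insert, Finset.mem_singleton, Prod.mk.injEq, true_and]
    constructor
    · rintro (h | h)
      · exact Or.inl h
      · right
        fin_cases j
        · exact Or.inl ⟨h, rfl⟩
        · exact Or.inr ⟨h, rfl⟩
    · rintro (h | ⟨h, -⟩ | ⟨h, -⟩)
      · exact Or.inl h
      · exact Or.inr h
      · exact Or.inr h
  · rw [mem_neighborFinset]
    constructor
    · intro h
      exact absurd h not_adj_y_y
    · intro h
      simp at h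

theorem connected : Gr.Connected := by
  have h0 : ∀ (n : ℕ) (b : Bool) (i : Fin 2), Gr.Reachable (false, 0, 0) (b, n, i) := by
    intro n
    induction n with
    | zero =>
      -- everything on level zero
      have a1 : Gr.Reachable (false, 0, 0) (true, 0, 0) :=
        (Gr.adj_symm (adj_y_s.2 (Or.inl ⟨rfl, rfl⟩))).reachable
      have a2 : Gr.Reachable (true, 0, 0) (false, 1, 0) :=
        (adj_y_s.2 (Or.inr rfl)).reachable
      have a3 : Gr.Reachable (false, 1, 0) (true, 0, 1) :=
        (Gr.adj_symm (adj_y_s.2 (Or.inr rfl))).reachable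
      have a4 : Gr.Reachable (true, 0, 1) (false, 0, 1) :=
        (adj_y_s.2 (Or.inl ⟨rfl, rfl⟩)).reachable
      intro b i
      cases b <;> fin_cases i
      · exact Reachable.refl _
      · exact a1.trans (a2.trans (a3.trans a4))
      · exact a1
      · exact a1.trans (a2.trans a3)
    | succ n ih =>
      have hs : ∀ i : Fin 2, Gr.Reachable (false, 0, 0) (false, n + 1, i) := fun i =>
        (ih true 0).trans (adj_y_s.2 (Or.inr rfl)).reachable
      intro b i
      cases b
      · exact hs i
      · exact (hs i).trans (Gr.adj_symm (adj_y_s.2 (Or.inl ⟨rfl, rfl⟩))).reachable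
  rw [connected_iff]
  exact ⟨fun ⟨b, n, i⟩ ⟨b', n', i'⟩ => (h0 n b i).symm.trans (h0 n' b' i'), ⟨(false, 0, 0)⟩⟩

/-! ### Flatness -/

section flat

variable {R : Type u} [CommRing R] (w : Vx → Vx → R) (d : Vx → R)

/-- The coefficient of `y n i` in `L (y n i)`. -/
def cc (n : ℕ) (i : Fin 2) : R :=
  d (true, n, i) + w (true, n, i) (false, n, i) + w (true, n, i) (false, n + 1, 0) +
    w (true, n, i) (false, n + 1, 1)

theorem lapVec_y (n : ℕ) (i : Fin 2) : lapVec Gr R w d (true, n, i) =
    cc w d n i • Finsupp.single (true, n, i) 1 -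
      w (true, n, i) (false, n, i) • Finsupp.single (false, n, i) 1 -
      w (true, n, i) (false, n + 1, 0) • Finsupp.single (false, n + 1, 0) 1 -
      w (true, n, i) (false, n + 1, 1) • Finsupp.single (false, n + 1, 1) 1 := by
  unfold lapVec
  rw [nbr_y, Finset.sum_insert, Finset.sum_insert, Finset.sum_singleton]
  · have h1 : Finsupp.single (true, n, i) (d (true, n, i)) =
        d (true, n, i) • (Finsupp.single (true, n, i) 1 : Vx →₀ R) := by
      rw [Finsupp.smul_single, smul_eq_mul, mul_one]
    rw [h1]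
    unfold cc
    simp only [smul_sub, add_smul]
    abel
  · simp
  · simp

/-- The substitution of `s n i` by its expression at level `n + 1`. -/
noncomputable def sig (n : ℕ) : (Vx →₀ R) →ₗ[R] (Vx →₀ R) :=
  Finsupp.linearCombination R fun v => if v.1 = false ∧ v.2.1 = n then
    Ring.inverse (w (true, n, v.2.2) (false, n, v.2.2)) •
      (cc w d n v.2.2 • Finsupp.single (true, n, v.2.2) 1 -
      w (true, n, v.2.2) (false, n + 1, 0) • Finsupp.single (false, n + 1, 0) 1 -
      w (true, n, v.2.2) (false, n + 1, 1) • Finsupp.single (false, n + 1, 1) 1)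
    else Finsupp.single v 1

theorem sig_single (n : ℕ) (v : Vx) : sig w d n (Finsupp.single v 1) =
    if v.1 = false ∧ v.2.1 = n then
    Ring.inverse (w (true, n, v.2.2) (false, n, v.2.2)) •
      (cc w d n v.2.2 • Finsupp.single (true, n, v.2.2) 1 -
      w (true, n, v.2.2) (false, n + 1, 0) • Finsupp.single (false, n + 1, 0) 1 -
      w (true, n, v.2.2) (false, n + 1, 1) • Finsupp.single (false, n + 1, 1) 1)
    else Finsupp.single v 1 := by
  unfold sig
  rw [Finsupp.linearCombination_single, one_smul]

theorem sig_y (n m : ℕ) (i : Fin 2) :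
    sig w d n (Finsupp.single (true, m, i) 1) = Finsupp.single (true, m, i) 1 := by
  rw [sig_single, if_neg (by simp)]

theorem sig_s_ne {n m : ℕ} (h : m ≠ n) (i : Fin 2) :
    sig w d n (Finsupp.single (false, m, i) 1) = Finsupp.single (false, m, i) 1 := by
  rw [sig_single, if_neg (by simp [h])]

theorem sig_s (n : ℕ) (i : Fin 2) : sig w d n (Finsupp.single (false, n, i) 1) =
    Ring.inverse (w (true, n, i) (false, n, i)) •
      (cc w d n i • Finsupp.single (true, n, i) 1 -
      w (true, n, i) (false, n + 1, 0) • Finsupp.single (false, n + 1, 0) 1 -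
      w (true, n, i) (false, n + 1, 1) • Finsupp.single (false, n + 1, 1) 1) := by
  rw [sig_single, if_pos (by simp)]

/-- Elimination of the boundary vertices below level `N`. -/
noncomputable def elim : ℕ → (Vx →₀ R) →ₗ[R] (Vx →₀ R)
  | 0 => LinearMap.id
  | N + 1 => (sig w d N).comp (elim N)

theorem imInt_eq : imInt Gr R Int w d =
    Submodule.span R (Set.range fun p : ℕ × Fin 2 => lapVec Gr R w d (true, p.1, p.2)) := by
  unfold imInt lap
  rw [Finsupp.supported_eq_span_single, Submodule.map_span]
  congr 1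
  ext z
  constructor
  · rintro ⟨_, ⟨⟨b, n, i⟩, hv, rfl⟩, rfl⟩
    have hb : b = true := hv
    subst hb
    refine ⟨(n, i), ?_⟩
    rw [Finsupp.linearCombination_single, one_smul]
  · rintro ⟨⟨n, i⟩, rfl⟩
    refine ⟨Finsupp.single (true, n, i) 1, ⟨(true, n, i), rfl, rfl⟩, ?_⟩
    rw [Finsupp.linearCombination_single, one_smul]

variable {w} (hw : IsNetwork Gr R w)

include hw in
theorem isUnit_w (n : ℕ) (i : Fin 2) : IsUnit (w (true, n, i) (false, n, i)) :=
  (hw _ _ (adj_y_s.2 (Or.inl ⟨rfl, rfl⟩))).2

include hw in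
theorem sub_sig_mem (n : ℕ) (m : Vx →₀ R) : m - sig w d n m ∈ imInt Gr R Int w d := by
  induction m using Finsupp.induction_linear with
  | zero => rw [map_zero, sub_zero]; exact Submodule.zero_mem _
  | add f g hf hg =>
    rw [map_add, show f + g - (sig w d n f + sig w d n g) =
      (f - sig w d n f) + (g - sig w d n g) by abel]
    exact Submodule.add_mem _ hf hg
  | single v a =>
    have h1 : Finsupp.single v a = a • (Finsupp.single v 1 : Vx →₀ R) := by
      rw [Finsupp.smul_single, smul_eq_mul, mul_one]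
    rw [h1, map_smul, ← smul_sub]
    refine Submodule.smul_mem _ _ ?_
    by_cases hv : v.1 = false ∧ v.2.1 = n
    · obtain ⟨b, m, i⟩ := v
      obtain ⟨hb, hm⟩ := hv
      simp only at hb hm
      subst hb; subst hm
      rw [sig_s]
      have h2 : Finsupp.single (false, m, i) 1 -
          Ring.inverse (w (true, m, i) (false, m, i)) •
          (cc w d m i • Finsupp.single (true, m, i) 1 -
          w (true, m, i) (false, m + 1, 0) • Finsupp.single (false, m + 1, 0) 1 -
          w (true, m, i) (false, m + 1, 1) • Finsupp.single (false, m + 1, 1) 1) =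
          (-Ring.inverse (w (true, m, i) (false, m, i))) • lapVec Gr R w d (true, m, i) := by
        rw [lapVec_y]
        have h3 : (Finsupp.single (false, m, i) 1 : Vx →₀ R) =
            (Ring.inverse (w (true, m, i) (false, m, i)) * w (true, m, i) (false, m, i)) •
              Finsupp.single (false, m, i) 1 := by
          rw [Ring.inverse_mul_cancel _ (isUnit_w hw m i), one_smul]
        nth_rewrite 1 [h3]
        simp only [smul_sub, neg_smul, mul_smul]
        abel
      rw [h2, imInt_eq]
      exact Submodule.smul_mem _ _ (Submodule.subset_span ⟨(m, i), rfl⟩)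
    · rw [sig_single, if_neg hv, sub_self]
      exact Submodule.zero_mem _

include hw in
theorem sub_elim_mem (N : ℕ) (m : Vx →₀ R) : m - elim w d N m ∈ imInt Gr R Int w d := by
  induction N with
  | zero =>
    show m - m ∈ _
    rw [sub_self]; exact Submodule.zero_mem _
  | succ N ih =>
    have h1 := sub_sig_mem d hw N (elim w d N m)
    have h2 : m - elim w d (N + 1) m =
        (m - elim w d N m) + (elim w d N m - sig w d N (elim w d N m)) := by
      show m - sig w d N (elim w d N m) = _
      abel
    rw [h2]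
    exact Submodule.add_mem _ ih h1

theorem elim_y (N n : ℕ) (i : Fin 2) :
    elim w d N (Finsupp.single (true, n, i) 1) = Finsupp.single (true, n, i) 1 := by
  induction N with
  | zero => rfl
  | succ N ih =>
    show sig w d N (elim w d N _) = _
    rw [ih, sig_y]

theorem elim_s {N n : ℕ} (h : N ≤ n) (i : Fin 2) :
    elim w d N (Finsupp.single (false, n, i) 1) = Finsupp.single (false, n, i) 1 := by
  induction N with
  | zero => rfl
  | succ N ih =>
    show sig w d N (elim w d N _) = _
    rw [ih (by omega), sig_s_ne _ _ (by omega)]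

include hw in
theorem elim_lapVec {N n : ℕ} (h : n < N) (i : Fin 2) :
    elim w d N (lapVec Gr R w d (true, n, i)) = 0 := by
  induction N with
  | zero => omega
  | succ N ih =>
    show sig w d N (elim w d N _) = 0
    rcases Nat.lt_succ_iff_lt_or_eq.1 h with h' | rfl
    · rw [ih h', map_zero]
    · have h1 : elim w d n (lapVec Gr R w d (true, n, i)) = lapVec Gr R w d (true, n, i) := by
        rw [lapVec_y]
        simp only [map_sub, map_smul]
        rw [elim_y, elim_s d le_rfl, elim_s d (Nat.le_succ n), elim_s d (Nat.le_succ n)]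
      rw [h1, lapVec_y]
      simp only [map_sub, map_smul]
      rw [sig_y, sig_s, sig_s_ne _ _ (Nat.succ_ne_self n), sig_s_ne _ _ (Nat.succ_ne_self n),
        smul_smul, Ring.mul_inverse_cancel _ (isUnit_w hw n i), one_smul]
      abel

include hw in
theorem exists_elim (z : Vx →₀ R) (hz : z ∈ imInt Gr R Int w d) :
    ∃ N₀, ∀ N, N₀ ≤ N → elim w d N z = 0 := by
  rw [imInt_eq] at hz
  induction hz using Submodule.span_induction with
  | mem x hx =>
    obtain ⟨⟨n, i⟩, rfl⟩ := hx
    exact ⟨n + 1, fun N hN => elim_lapVec d hw (by omega) i⟩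
  | zero => exact ⟨0, fun N _ => map_zero _⟩
  | add x y _ _ hx hy =>
    obtain ⟨N₁, h1⟩ := hx
    obtain ⟨N₂, h2⟩ := hy
    refine ⟨max N₁ N₂, fun N hN => ?_⟩
    rw [map_add, h1 N (le_trans (le_max_left _ _) hN), h2 N (le_trans (le_max_right _ _) hN),
      add_zero]
  | smul a x _ hx =>
    obtain ⟨N₁, h1⟩ := hx
    exact ⟨N₁, fun N hN => by rw [map_smul, h1 N hN, smul_zero]⟩

include hw in
theorem flat_fund : Module.Flat R (Fund Gr R Int w d) := by
  refine flat_quot _ fun z hz => ?_
  obtain ⟨N, hN⟩ := exists_elim d hw z hz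
  exact ⟨elim w d N, sub_elim_mem d hw N, hN N le_rfl⟩

end flat

/-! ### A network over the integers -/

/-- The weight between `y n i` and a boundary vertex. -/
def wt : Vx → Vx → ℤ
  | (true, n, i), (false, m, j) => if m = n then -1 else if i = 1 ∧ j = 1 then -1 else 1
  | _, _ => 0

/-- The symmetric weights. -/
def ww (u v : Vx) : ℤ := wt u v + wt v u

theorem ww_y_s (n m : ℕ) (i j : Fin 2) : ww (true, n, i) (false, m, j) =
    if m = n then -1 else if i = 1 ∧ j = 1 then -1 else 1 := by
  show (if m = n then -1 else if i = 1 ∧ j = 1 then -1 else 1) + 0 = _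
  rw [add_zero]

theorem ww_symm (u v : Vx) : ww u v = ww v u := add_comm _ _

theorem network : IsNetwork Gr ℤ ww := by
  intro u v huv
  refine ⟨ww_symm u v, ?_⟩
  have key : ∀ (n m : ℕ) (i j : Fin 2), IsUnit (ww (true, n, i) (false, m, j)) := by
    intro n m i j
    rw [ww_y_s]
    split_ifs <;> simp
  rcases u with ⟨_ | _, n, i⟩ <;> rcases v with ⟨_ | _, m, j⟩
  · exact absurd huv not_adj_s_s
  · rw [ww_symm]; exact key _ _ _ _
  · exact key _ _ _ _
  · exact absurd huv not_adj_y_y

/-- The potential that makes the coefficient of `y n i` vanish. -/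
def dd (v : Vx) : ℤ := if v.2.2 = 0 then -1 else 1

theorem cc_zero (n : ℕ) (i : Fin 2) : cc ww dd n i = 0 := by
  unfold cc dd
  rw [ww_y_s, ww_y_s, ww_y_s]
  fin_cases i <;> simp

/-- The values of the functional. -/
def val : ℕ → ℚ × ℚ
  | 0 => (1, 0)
  | n + 1 => (((val n).1 + (val n).2) / 2, ((val n).1 - (val n).2) / 2)

/-- The functional on basis vectors. -/
def fv : Vx → ℚ
  | (true, _, _) => 0
  | (false, n, i) => if i = 0 then (val n).1 else (val n).2

/-- The functional. -/
noncomputable def phi : (Vx →₀ ℤ) →ₗ[ℤ] ℚ := Finsupp.linearCombination ℤ fv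

theorem phi_single (v : Vx) : phi (Finsupp.single v 1) = fv v := by
  unfold phi
  rw [Finsupp.linearCombination_single, one_smul]

theorem lapVec_zero (n : ℕ) : lapVec Gr ℤ ww dd (true, n, 0) =
    Finsupp.single (false, n, 0) 1 - Finsupp.single (false, n + 1, 0) 1 -
      Finsupp.single (false, n + 1, 1) 1 := by
  rw [lapVec_y, cc_zero, ww_y_s, ww_y_s, ww_y_s]
  simp

theorem lapVec_one (n : ℕ) : lapVec Gr ℤ ww dd (true, n, 1) =
    Finsupp.single (false, n, 1) 1 - Finsupp.single (false, n + 1, 0) 1 +
      Finsupp.single (false, n + 1, 1) 1 := by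
  rw [lapVec_y, cc_zero, ww_y_s, ww_y_s, ww_y_s]
  simp

theorem phi_imInt : imInt Gr ℤ Int ww dd ≤ LinearMap.ker phi := by
  rw [imInt_eq, Submodule.span_le]
  rintro _ ⟨⟨n, i⟩, rfl⟩
  show phi _ = 0
  fin_cases i
  · show phi (lapVec Gr ℤ ww dd (true, n, 0)) = 0
    rw [lapVec_zero, map_sub, map_sub, phi_single, phi_single, phi_single]
    simp only [fv, val]
    norm_num
    ring
  · show phi (lapVec Gr ℤ ww dd (true, n, 1)) = 0
    rw [lapVec_one, map_add, map_sub, phi_single, phi_single, phi_single]
    simp only [fv, val]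
    norm_num
    ring

/-- The class of a boundary vertex. -/
noncomputable def cls (n : ℕ) (i : Fin 2) : Fund Gr ℤ Int ww dd :=
  Submodule.Quotient.mk (Finsupp.single (false, n, i) 1)

theorem cls_rel_zero (n : ℕ) : cls n 0 = cls (n + 1) 0 + cls (n + 1) 1 := by
  have h : lapVec Gr ℤ ww dd (true, n, 0) ∈ imInt Gr ℤ Int ww dd := by
    rw [imInt_eq]
    exact Submodule.subset_span ⟨(n, 0), rfl⟩
  rw [lapVec_zero, ← Submodule.Quotient.mk_eq_zero, Submodule.Quotient.mk_sub,
    Submodule.Quotient.mk_sub, sub_sub, sub_eq_zero] at h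
  exact h

theorem cls_rel_one (n : ℕ) : cls n 1 = cls (n + 1) 0 - cls (n + 1) 1 := by
  have h : lapVec Gr ℤ ww dd (true, n, 1) ∈ imInt Gr ℤ Int ww dd := by
    rw [imInt_eq]
    exact Submodule.subset_span ⟨(n, 1), rfl⟩
  rw [lapVec_one, ← Submodule.Quotient.mk_eq_zero, Submodule.Quotient.mk_add,
    Submodule.Quotient.mk_sub, sub_add, sub_eq_zero] at h
  exact h

theorem cls_two (n : ℕ) : cls n 0 = (2 : ℤ) • cls (n + 2) 0 := by
  rw [cls_rel_zero n, cls_rel_zero (n + 1), cls_rel_one (n + 1)]
  rw [two_smul]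
  abel

theorem cls_pow (k : ℕ) : cls 0 0 = ((2 : ℤ) ^ k) • cls (2 * k) 0 := by
  induction k with
  | zero => simp
  | succ k ih =>
    rw [ih, cls_two (2 * k), smul_smul, ← pow_succ]
    rfl

theorem cls_ne_zero : cls 0 0 ≠ 0 := by
  intro h
  have h1 := (Submodule.Quotient.mk_eq_zero _).1 h
  have h2 : phi (Finsupp.single (false, 0, 0) 1) = 0 := phi_imInt h1
  rw [phi_single] at h2
  simp [fv, val] at h2

theorem not_free : ¬ Module.Free ℤ (Fund Gr ℤ Int ww dd) := by
  intro hfree
  let b := Module.Free.chooseBasis ℤ (Fund Gr ℤ Int ww dd)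
  apply cls_ne_zero
  rw [← b.repr.map_eq_zero_iff]
  ext j
  by_contra hne
  have hne' : b.repr (cls 0 0) j ≠ 0 := hne
  -- divisible by every power of two
  have hdiv : ∀ k : ℕ, (2 : ℤ) ^ k ∣ b.repr (cls 0 0) j := by
    intro k
    refine ⟨b.repr (cls (2 * k) 0) j, ?_⟩
    rw [cls_pow k, map_smul, Finsupp.smul_apply, smul_eq_mul]
  have h1 := hdiv (b.repr (cls 0 0) j).natAbs
  have h2 := Int.natAbs_dvd_natAbs.2 h1
  rw [Int.natAbs_pow] at h2
  have h3 := Nat.le_of_dvd (Int.natAbs_pos.2 hne') h2
  have h4 : (b.repr (cls 0 0) j).natAbs < 2 ^ (b.repr (cls 0 0) j).natAbs :=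
    Nat.lt_two_pow_self
  have h5 : (2 : ℤ).natAbs = 2 := rfl
  rw [h5] at h3
  omega

/-- There is an infinite, countable, locally finite, connected simple graph with a set `I` of
interior vertices such that all fundamental modules of all networks over all commutative rings
are flat, but a fundamental module of some network over the integers is not free. -/
theorem result : ∃ (V : Type) (_ : Countable V) (_ : Infinite V) (G : SimpleGraph V)
    (_ : G.LocallyFinite) (I : Set V), G.Connected ∧
    (∀ (R : Type u) [CommRing R] (w : V → V → R) (d : V → R), IsNetwork G R w →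
      Module.Flat R (Fund G R I w d)) ∧
    ∃ (w : V → V → ℤ) (d : V → ℤ), IsNetwork G ℤ w ∧ ¬ Module.Free ℤ (Fund G ℤ I w d) := by
  refine ⟨Vx, inferInstance, inferInstance, Gr, inferInstance, Int, connected, ?_,
    ww, dd, network, not_free⟩
  intro R _ w d hw
  exact flat_fund d hw

end Pool.Agent.Results.MP_2ddb17_co.FlatNotFree
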